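import Pool.Agent.H180.RS.Stmts2

/-!
The dyadic law from the independence of the exotic classes.
-/

set_option autoImplicit false
set_option linter.unusedSectionVars false
set_option maxHeartbeats 400000

namespace Pool.Agent.Q6.RS

open Finset NumberField Filter Topology Pool.Agent.H916R2 Pool.Agent.Q59.FS Pool.Agent.Q59.RL
  Pool.Agent.H180.RS

/-- pairs of elements of a finite set -/
theorem card_pairs (S : Finset ℕ) :
    ((S ×ˢ S).filter fun e => e.1 < e.2).card = S.card.choose 2 := by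
  classical
  have h1 : S.offDiag = ((S ×ˢ S).filter fun e => e.1 < e.2) ∪
      ((S ×ˢ S).filter fun e => e.2 < e.1) := by
    ext ⟨a, b⟩
    simp only [mem_offDiag, mem_union, mem_filter, mem_product]
    constructor
    · rintro ⟨ha, hb, hab⟩
      rcases lt_or_gt_of_ne hab with h | h
      · exact Or.inl ⟨⟨ha, hb⟩, h⟩
      · exact Or.inr ⟨⟨ha, hb⟩, h⟩
    · rintro (⟨⟨ha, hb⟩, h⟩ | ⟨⟨ha, hb⟩, h⟩)
      · exact ⟨ha, hb, h.ne⟩
      · exact ⟨ha, hb, h.ne'⟩
  have h2 : Disjoint ((S ×ˢ S).filter fun e => e.1 < e.2)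
      ((S ×ˢ S).filter fun e : ℕ × ℕ => e.2 < e.1) := by
    rw [Finset.disjoint_left]
    intro e h h'
    have := (mem_filter.mp h).2
    have := (mem_filter.mp h').2
    omega
  have h3 : ((S ×ˢ S).filter fun e : ℕ × ℕ => e.2 < e.1).card =
      ((S ×ˢ S).filter fun e => e.1 < e.2).card := by
    refine card_nbij' Prod.swap Prod.swap ?_ ?_ ?_ ?_
    · intro e he
      simp only [coe_filter, mem_product, Set.mem_ofPred_eq, Prod.fst_swap, Prod.snd_swap] at he ⊢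
      exact ⟨⟨he.1.2, he.1.1⟩, he.2⟩
    · intro e he
      simp only [coe_filter, mem_product, Set.mem_ofPred_eq, Prod.fst_swap, Prod.snd_swap] at he ⊢
      exact ⟨⟨he.1.2, he.1.1⟩, he.2⟩
    · intro e _; exact Prod.swap_swap e
    · intro e _; exact Prod.swap_swap e
  have h4 := congrArg Finset.card h1
  rw [offDiag_card, card_union_of_disjoint h2, h3] at h4
  rw [Nat.choose_two_right]
  have h5 : S.card * (S.card - 1) = S.card * S.card - S.card := by
    rw [Nat.mul_sub_one]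
  rw [h5, h4]
  omega

section Grp

variable {V : Type*} [AddCommGroup V] {κ : Type*} [DecidableEq κ]

/-- subset sums of elements of order two -/
def subs (S : Finset κ) (X : κ → V) (hX : ∀ e ∈ S, (2 : ℤ) • X e = 0) : AddSubgroup V where
  carrier := {v | ∃ E ⊆ S, v = ∑ e ∈ E, X e}
  zero_mem' := ⟨∅, empty_subset _, by simp⟩
  add_mem' := by
    rintro _ _ ⟨E, hE, rfl⟩ ⟨E', hE', rfl⟩
    refine ⟨symmDiff E E', ?_, ?_⟩
    · intro e he
      rcases mem_symmDiff.mp he with h | h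
      · exact hE h.1
      · exact hE' h.1
    · have h1 : ∑ e ∈ E, X e + ∑ e ∈ E', X e = ∑ e ∈ symmDiff E E', X e +
          (2 : ℤ) • ∑ e ∈ E ∩ E', X e := by
        have h2 : E = (E \ E') ∪ (E ∩ E') := by
          rw [sdiff_union_inter]
        have h3 : E' = (E' \ E) ∪ (E ∩ E') := by
          rw [inter_comm, sdiff_union_inter]
        have h4 : ∑ e ∈ E, X e = ∑ e ∈ E \ E', X e + ∑ e ∈ E ∩ E', X e := by
          conv_lhs => rw [h2]
          exact sum_union (disjoint_sdiff_inter _ _)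
        have h5 : ∑ e ∈ E', X e = ∑ e ∈ E' \ E, X e + ∑ e ∈ E ∩ E', X e := by
          conv_lhs => rw [h3]
          rw [inter_comm]
          exact sum_union (disjoint_sdiff_inter _ _)
        have h6 : ∑ e ∈ symmDiff E E', X e = ∑ e ∈ E \ E', X e + ∑ e ∈ E' \ E, X e := by
          rw [symmDiff_def]
          exact sum_union disjoint_sdiff_sdiff
        rw [h4, h5, h6, two_smul]
        abel
      have h7 : (2 : ℤ) • ∑ e ∈ E ∩ E', X e = 0 := by
        rw [smul_sum]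
        exact sum_eq_zero fun e he => hX e (hE (mem_inter.mp he).1)
      rw [h1, h7, add_zero]
  neg_mem' := by
    rintro _ ⟨E, hE, rfl⟩
    refine ⟨E, hE, ?_⟩
    have h7 : (2 : ℤ) • ∑ e ∈ E, X e = 0 := by
      rw [smul_sum]
      exact sum_eq_zero fun e he => hX e (hE he)
    rw [two_smul] at h7
    exact neg_eq_of_add_eq_zero_left h7

theorem card_subs (S : Finset κ) (X : κ → V) (hX : ∀ e ∈ S, (2 : ℤ) • X e = 0)
    (hne : ∀ E ⊆ S, E.Nonempty → ∑ e ∈ E, X e ≠ 0) : Nat.card (subs S X hX) = 2 ^ S.card := by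
  classical
  have h1 : Nat.card (S.powerset : Finset (Finset κ)) = 2 ^ S.card := by
    rw [Nat.card_eq_fintype_card, Fintype.card_coe, card_powerset]
  rw [← h1]
  symm
  refine Nat.card_congr (Equiv.ofBijective
    (fun E : (S.powerset : Finset (Finset κ)) => (⟨∑ e ∈ E.1, X e, E.1, mem_powerset.mp E.2, rfl⟩ :
      subs S X hX)) ⟨?_, ?_⟩)
  · rintro ⟨E, hE⟩ ⟨E', hE'⟩ h
    have h2 : ∑ e ∈ E, X e = ∑ e ∈ E', X e := congrArg Subtype.val h
    rw [mem_powerset] at hE hE'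
    apply Subtype.ext
    change E = E'
    by_contra hcon
    have h3 : (symmDiff E E').Nonempty := by
      rw [nonempty_iff_ne_empty]
      intro h4
      exact hcon (symmDiff_eq_bot.mp h4)
    have h4 : symmDiff E E' ⊆ S := by
      intro e he
      rcases mem_symmDiff.mp he with h | h
      · exact hE h.1
      · exact hE' h.1
    apply hne _ h4 h3
    have h5 : ∑ e ∈ symmDiff E E', X e = ∑ e ∈ E \ E', X e + ∑ e ∈ E' \ E, X e := by
      rw [symmDiff_def]
      exact sum_union disjoint_sdiff_sdiff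
    have h6 : ∑ e ∈ E \ E', X e + ∑ e ∈ E ∩ E', X e = ∑ e ∈ E, X e := by
      rw [← sum_union (disjoint_sdiff_inter _ _), sdiff_union_inter]
    have h7 : ∑ e ∈ E' \ E, X e + ∑ e ∈ E ∩ E', X e = ∑ e ∈ E', X e := by
      rw [inter_comm, ← sum_union (disjoint_sdiff_inter _ _), sdiff_union_inter]
    have h8 : ∑ e ∈ E \ E', X e = ∑ e ∈ E' \ E, X e := by
      have : ∑ e ∈ E \ E', X e + ∑ e ∈ E ∩ E', X e = ∑ e ∈ E' \ E, X e + ∑ e ∈ E ∩ E', X e := by
        rw [h6, h7, h2]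
      exact add_right_cancel this
    rw [h5, ← h8, ← two_smul ℤ, smul_sum]
    exact sum_eq_zero fun e he => hX e (hE (mem_sdiff.mp he).1)
  · rintro ⟨_, E, hE, rfl⟩
    exact ⟨⟨E, mem_powerset.mpr hE⟩, rfl⟩

/-- disjoint subgroups -/
theorem card_mul_dvd (F U T : AddSubgroup V) (hF : F ≤ T) (hU : U ≤ T) (hFU : F ⊓ U = ⊥) :
    Nat.card F * Nat.card U ∣ Nat.card T := by
  have h1 : Nat.card F * F.relIndex T = Nat.card T := by
    have h2 := AddSubgroup.relIndex_mul_relIndex ⊥ F T bot_le hF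
    rwa [AddSubgroup.relIndex_bot_left, AddSubgroup.relIndex_bot_left] at h2
  rw [← h1]
  refine Nat.mul_dvd_mul_left _ ?_
  have h3 : F.relIndex U ∣ F.relIndex T := by
    have h5 := AddSubgroup.relIndex_dvd_index_of_normal (F.addSubgroupOf T) (U.addSubgroupOf T)
    rwa [AddSubgroup.relIndex_addSubgroupOf hU] at h5
  have h4 : F.relIndex U = Nat.card U := by
    rw [← AddSubgroup.inf_relIndex_right, hFU, AddSubgroup.relIndex_bot_left]
  rwa [h4] at h3

end Grp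

section Law

variable {K : Type} [Field K] [NumberField K] {m : ℕ} [NeZero m] {σ : K →+* ℂ}
  {A : Multiset (ZMod m) → Prop}

theorem prs_spec {e : ℕ × ℕ} (he : e ∈ prs m) :
    e.1.Prime ∧ e.2.Prime ∧ e.1 ∣ m ∧ e.2 ∣ m ∧ e.1 ≠ e.2 := by
  unfold prs at he
  rw [mem_filter, mem_product] at he
  exact ⟨Nat.prime_of_mem_primeFactors he.1.1, Nat.prime_of_mem_primeFactors he.1.2,
    Nat.dvd_of_mem_primeFactors he.1.1, Nat.dvd_of_mem_primeFactors he.1.2, he.2.ne⟩

theorem ne_two_of_dvd (hodd : Odd m) {p : ℕ} (hp : p ∣ m) : p ≠ 2 := by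
  rintro rfl
  exact (Nat.not_even_iff_odd.mpr hodd) (even_iff_two_dvd.mpr hp)

theorem cast_ne {p q : ℕ} [hp : Fact p.Prime] (hq : q.Prime) (hpq : p ≠ q) :
    (q : ZMod p) ≠ 0 := by
  intro h
  rw [ZMod.natCast_eq_zero_iff] at h
  exact hpq ((Nat.prime_dvd_prime_iff_eq hp.out hq).mp h)

theorem two_Xc (hodd : Odd m) {G : Type*} [AddCommGroup G] {c : ZMod m → G} (hc : OddDist c)
    {e : ℕ × ℕ} (he : e ∈ prs m) : (2 : ℤ) • Xc m e.1 e.2 c = 0 := by
  obtain ⟨h1, h2, h3, h4, h5⟩ := prs_spec he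
  have : Fact e.1.Prime := ⟨h1⟩
  have : Fact e.2.Prime := ⟨h2⟩
  exact two_XX hc h3 h4 (ne_two_of_dvd hodd h3) (ne_two_of_dvd hodd h4) (gn_spec _) (gn_spec _)
    (lg_spec (cast_ne h2 h5)) (lg_spec (cast_ne h1 h5.symm))

theorem Xc_mem (hodd : Odd m) {G : Type} [AddCommGroup G] (c : ZMod m → G) {e : ℕ × ℕ}
    (he : e ∈ prs m) : Xc m e.1 e.2 c ∈ TD c m := by
  obtain ⟨h1, h2, h3, h4, h5⟩ := prs_spec he
  have : Fact e.1.Prime := ⟨h1⟩
  have : Fact e.2.Prime := ⟨h2⟩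
  rw [mem_TD]
  refine ⟨xf m e.1 e.2 (gn e.1) (gn e.2) (lg e.1 e.2) (lg e.2 e.1), ?_, fun a _ => ?_, ?_⟩
  · exact xf_rel h3 h4 (ne_two_of_dvd hodd h3) (ne_two_of_dvd hodd h4) (gn_spec _) (gn_spec _)
      (lg_spec (cast_ne h2 h5)) (lg_spec (cast_ne h1 h5.symm))
  · have := addOrderOf_dvd_card (x := a)
    rw [ZMod.card] at this
    exact Nat.le_of_dvd (NeZero.pos m) this
  · rw [← lc_apply, lc_xf]
    rfl

/-- the natural map to the classes modulo `A` -/
noncomputable def nat (A : Multiset (ZMod m) → Prop) :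
    UD m × ZMod 2 →+ ((ZMod m → ℤ) ⧸ LL m A) × ZMod 2 :=
  (lft (cQ m A) cQ_oddDist).prodMap (AddMonoidHom.id (ZMod 2))

theorem nat_clU (s : Multiset (ZMod m)) : nat A (clU s) = cl A s := by
  unfold nat clU cl
  refine Prod.ext ?_ rfl
  change lft (cQ m A) cQ_oddDist (s.map (cU m)).sum = _
  rw [map_multiset_sum, Multiset.map_map]
  congr 1
  exact Multiset.map_congr rfl fun a _ => lft_cU _ _ a

theorem nat_mem_iff (hA : Adm m A) (w : UD m × ZMod 2) :
    nat A w ∈ TT' A ↔ w ∈ (TD (cU m) m).prod (⊥ : AddSubgroup (ZMod 2)) := by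
  obtain ⟨w1, w2⟩ := w
  unfold TT'
  rw [AddSubgroup.mem_prod, AddSubgroup.mem_prod]
  change (lft (cQ m A) cQ_oddDist w1 ∈ TD (cQ m A) m ∧ w2 ∈ _) ↔ (w1 ∈ TD (cU m) m ∧ w2 ∈ _)
  refine and_congr ?_ Iff.rfl
  have hord : ∀ a : ZMod m, addOrderOf a ≤ m := fun a => by
    have := addOrderOf_dvd_card (x := a)
    rw [ZMod.card] at this
    exact Nat.le_of_dvd (NeZero.pos m) this
  constructor
  · intro h
    rw [mem_TD] at h
    obtain ⟨x, hx, _, hx'⟩ := h
    obtain ⟨y, rfl⟩ := exists_lc w1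
    rw [mem_TD]
    refine ⟨y, fun t => ?_, fun a _ => hord a, (lc_apply _ _).symm⟩
    have h1 : lft (cQ m A) cQ_oddDist (lc (cU m) y) = ∑ a, y a • cQ m A a := by
      rw [← mk_eq, lft_mk, lc_apply]
    rw [h1] at hx'
    have h2 := congrArg (psi A hA t) hx'
    have h3 : ∀ z : ZMod m → ℤ, psi A hA t (∑ a, z a • cQ m A a) =
        2 * ∑ a, z a * saw ((t : ZMod m) * a) := by
      intro z
      rw [map_sum, mul_sum]
      refine sum_congr rfl fun a _ => ?_
      rw [map_zsmul, psi_cQ, smul_eq_mul]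
      ring
    rw [h3, h3, hx t, mul_zero] at h2
    omega
  · intro h
    rw [mem_TD] at h
    obtain ⟨x, hx, _, hx'⟩ := h
    rw [mem_TD]
    refine ⟨x, hx, fun a _ => hord a, ?_⟩
    rw [← hx', map_sum]
    refine sum_congr rfl fun a _ => ?_
    rw [map_zsmul, lft_cU]

theorem levels_eq (hodd : Odd m) : levels m = m.primeFactors := by
  unfold levels
  refine filter_true_of_mem fun p hp => Or.inl ?_
  exact ne_two_of_dvd hodd (Nat.dvd_of_mem_primeFactors hp)

/-- the group -/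
theorem card_group (hA : Adm m A) (hodd : Odd m) {Γ : Type} [AddCommGroup Γ]
    (R : AddSubgroup Γ) (πU : Γ →+ UD m × ZMod 2)
    (hne : ∀ E ⊆ prs m, E.Nonempty → ∀ x ∈ R, πU x ≠ (∑ e ∈ E, Xc m e.1 e.2 (cU m), 0)) :
    ∃ s ≤ 2 ^ (m.primeFactors.card - 1) - 1 - m.primeFactors.card.choose 2,
      Nat.card (TT' A ⊓ R.map ((nat A).comp πU) : AddSubgroup _) = 2 ^ s := by
  classical
  set TU : AddSubgroup (UD m × ZMod 2) := (TD (cU m) m).prod ⊥ with hTU
  set FU : AddSubgroup (UD m × ZMod 2) := TU ⊓ R.map πU with hFU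
  obtain ⟨s1, hs1, hcard⟩ := card_T (cU_oddDist m)
  rw [levels_eq hodd] at hs1
  have hTUc : Nat.card TU = 2 ^ s1 := by
    rw [← hcard, hTU]
    have h1 : Nat.card ((TD (cU m) m).prod (⊥ : AddSubgroup (ZMod 2))) =
        Nat.card (TD (cU m) m) * Nat.card (⊥ : AddSubgroup (ZMod 2)) := by
      rw [← Nat.card_prod]
      exact Nat.card_congr (AddSubgroup.prodEquiv _ _).toEquiv
    rw [h1]
    simp
  -- the exotic subgroup
  let X : ℕ × ℕ → UD m × ZMod 2 := fun e => (Xc m e.1 e.2 (cU m), 0)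
  have hX : ∀ e ∈ prs m, (2 : ℤ) • X e = 0 := fun e he => by
    refine Prod.ext ?_ ?_
    · exact two_Xc hodd (cU_oddDist m) he
    · change (2 : ℤ) • (0 : ZMod 2) = 0
      exact smul_zero _
  have hXsum : ∀ E : Finset (ℕ × ℕ), ∑ e ∈ E, X e = (∑ e ∈ E, Xc m e.1 e.2 (cU m), 0) := by
    intro E
    refine Prod.ext ?_ ?_
    · rw [Prod.fst_sum]
    · rw [Prod.snd_sum]; exact sum_eq_zero fun _ _ => rfl
  set U := subs (prs m) X hX with hU
  have hUc : Nat.card U = 2 ^ (m.primeFactors.card.choose 2) := by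
    rw [hU, card_subs]
    · unfold prs; rw [card_pairs]
    · intro E hE hEn h
      refine hne E hE hEn 0 R.zero_mem ?_
      rw [map_zero, ← hXsum, h]
  have hUT : U ≤ TU := by
    rintro _ ⟨E, hE, rfl⟩
    refine AddSubgroup.sum_mem _ fun e he => ?_
    rw [hTU, AddSubgroup.mem_prod]
    exact ⟨Xc_mem hodd _ (hE he), AddSubgroup.mem_bot.mpr rfl⟩
  have hint : FU ⊓ U = ⊥ := by
    rw [eq_bot_iff]
    rintro w ⟨hw1, E, hE, rfl⟩
    rw [AddSubgroup.mem_bot]
    obtain ⟨x, hx, hxw⟩ := hw1.2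
    rcases E.eq_empty_or_nonempty with h | h
    · rw [h, sum_empty]
    · exfalso
      exact hne E hE h x hx (by rw [← hXsum]; exact hxw)
  have hdvd := card_mul_dvd FU U TU inf_le_left hUT hint
  rw [hUc, hTUc] at hdvd
  obtain ⟨a, ha, ha'⟩ := (Nat.dvd_prime_pow Nat.prime_two).mp ((Dvd.intro _ rfl).trans hdvd)
  rw [ha', ← pow_add] at hdvd
  have hle := (Nat.pow_dvd_pow_iff_le_right (by norm_num)).mp hdvd
  -- the image
  have himg : (TT' A ⊓ R.map ((nat A).comp πU) : AddSubgroup _) = FU.map (nat A) := by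
    ext v
    constructor
    · rintro ⟨h1, x, hx, rfl⟩
      exact ⟨πU x, ⟨(nat_mem_iff hA _).mp h1, x, hx, rfl⟩, rfl⟩
    · rintro ⟨_, ⟨h1, x, hx, rfl⟩, rfl⟩
      exact ⟨(nat_mem_iff hA _).mpr h1, x, hx, rfl⟩
  have hdvd2 : Nat.card (TT' A ⊓ R.map ((nat A).comp πU) : AddSubgroup _) ∣ 2 ^ a := by
    rw [himg, ← ha']
    exact AddSubgroup.card_map_dvd _ _
  obtain ⟨s, hs, hs'⟩ := (Nat.dvd_prime_pow Nat.prime_two).mp hdvd2
  exact ⟨s, by omega, hs'⟩

/-- differences of words have sum zero -/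
theorem df_sum_zero {ι : Type} [Fintype ι] [DecidableEq ι] {k : ℕ}
    (p : (Fin k → ι) × (Fin k → ι)) :
    ∑ i, df (fun i => (Pi.single i 1 : ι → ℤ)) p i = 0 := by
  have h1 : ∀ x : ι → ℤ, ∑ i, x i = lc (fun _ : ι => (1 : ℤ)) x := by
    intro x
    rw [lc_apply]
    exact sum_congr rfl fun i _ => by simp
  rw [h1, lc_df]
  unfold df
  simp

theorem fixed_uni' {ι : Type} [Fintype ι] [DecidableEq ι] [Nonempty ι]
    (L : ι → Multiset (ZMod m × 𝓞 K)) (hL : ∀ i, ∀ z ∈ L i, z.1 ≠ 0 ∧ z.2 ≠ 0)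
    (hsum : ∀ i, ((L i).map Prod.fst).sum = 0) {k : ℕ} (p : (Fin k → ι) × (Fin k → ι))
    (heven : Even (Multiset.card (uni L p))) :
    Fixed m σ (uni L p) ↔ df (fun i => (Pi.single i 1 : ι → ℤ)) p ∈ Rg σ L := by
  have key : ∀ d : DecidableEq ι, (Fixed m σ (uni L p) ↔
      df (fun i => (@Pi.single ι (fun _ => ℤ) _ d i 1 : ι → ℤ)) p ∈ Rg σ L) := by
    intro d
    have hd : d = fun a b => Classical.propDecidable (a = b) := Subsingleton.elim _ _
    subst hd
    exact fixed_uni (σ := σ) L hL hsum p heven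
  exact key _

theorem law : PropLaw := by
  intro K _ _ m _ A hA hm hodd σ ι _ _ _ L hL hsum hne
  set c : ι → (ι → ℤ) := fun i => Pi.single i 1 with hc
  set L' : ι → Multiset (ZMod m) := fun i => (L i).map Prod.fst with hL'
  have h0 : ∀ i, (0 : ZMod m) ∉ L' i := by
    intro i h
    obtain ⟨z, hz, hz0⟩ := Multiset.mem_map.mp h
    exact (hL i z hz).1 hz0
  set π : (ι → ℤ) →+ ((ZMod m → ℤ) ⧸ LL m A) × ZMod 2 := lc (fun i => cl A (L' i)) with hπ
  have hπdf : ∀ {k : ℕ} (p : (Fin k → ι) × (Fin k → ι)), π (df c p) = cl A (un L' p) := by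
    intro k p
    rw [hπ, lc_df, cl_un]
  set R : AddSubgroup (ι → ℤ) := Rg σ L ⊓ (lc (fun _ : ι => (1 : ℤ))).ker with hR
  have hmemR : ∀ x : ι → ℤ, x ∈ R ↔ x ∈ Rg σ L ∧ ∑ i, x i = 0 := by
    intro x
    rw [hR, AddSubgroup.mem_inf, AddMonoidHom.mem_ker, lc_apply]
    simp only [smul_eq_mul, mul_one]
  have hdfR : ∀ {k : ℕ} (p : (Fin k → ι) × (Fin k → ι)), df c p ∈ R ↔ df c p ∈ Rg σ L := by
    intro k p
    rw [hmemR]
    exact ⟨fun h => h.1, fun h => ⟨h, df_sum_zero p⟩⟩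
  set πU : (ι → ℤ) →+ UD m × ZMod 2 := lc (fun i => clU (L' i)) with hπU
  have hcomp : (nat A).comp πU = π := by
    refine AddMonoidHom.ext fun x => ?_
    rw [AddMonoidHom.comp_apply, hπU, hπ, lc_apply, lc_apply, map_sum]
    refine sum_congr rfl fun i _ => ?_
    rw [map_zsmul, nat_clU]
  obtain ⟨s0, hs0, hcard⟩ := card_group hA hodd R πU (by
    intro E hE hEn x hx
    rw [hmemR] at hx
    exact hne E hE hEn x hx.1 hx.2)
  rw [hcomp] at hcard
  obtain ⟨s, hs, h1, h2, h3⟩ := rel_law c R π (TT' A ⊓ R.map π) hcard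
  have evenH : ∀ {k : ℕ} (p : (Fin k → ι) × (Fin k → ι)), IsHodge m ((uni L p).map Prod.fst) →
      Even (Multiset.card (uni L p)) := by
    intro k p h
    have := h.2.1
    rwa [Multiset.card_map] at this
  have f1 : ∀ {k : ℕ} (p : (Fin k → ι) × (Fin k → ι)),
      (df c p ∈ R ∧ π (df c p) ∈ (TT' A ⊓ R.map π : AddSubgroup _)) ↔
        (IsHodge m ((uni L p).map Prod.fst) ∧ Fixed m σ (uni L p)) := by
    intro k p
    have g1 : (df c p ∈ R ∧ π (df c p) ∈ (TT' A ⊓ R.map π : AddSubgroup _)) ↔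
        (df c p ∈ Rg σ L ∧ π (df c p) ∈ TT' A) := by
      constructor
      · rintro ⟨a, b⟩
        exact ⟨(hdfR p).mp a, b.1⟩
      · rintro ⟨a, b⟩
        exact ⟨(hdfR p).mpr a, b, _, (hdfR p).mpr a, rfl⟩
    rw [g1, hπdf, cl_mem_iff hA (un_zero h0 p), ← uni_fst]
    constructor
    · rintro ⟨a, b⟩
      exact ⟨b, (fixed_uni' L hL hsum p (evenH p b)).mpr a⟩
    · rintro ⟨a, b⟩
      exact ⟨(fixed_uni' L hL hsum p (evenH p a)).mp b, a⟩
  have f2 : ∀ {k : ℕ} (p : (Fin k → ι) × (Fin k → ι)),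
      (df c p ∈ R ∧ π (df c p) = 0) ↔
        (A ((uni L p).map Prod.fst) ∧ Fixed m σ (uni L p)) := by
    intro k p
    rw [hdfR, hπdf, cl_eq_zero_iff hA hm (un_zero h0 p), ← uni_fst]
    constructor
    · rintro ⟨a, b⟩
      exact ⟨b, (fixed_uni' L hL hsum p (evenH p (hA.hodge _ b))).mpr a⟩
    · rintro ⟨a, b⟩
      exact ⟨(fixed_uni' L hL hsum p (evenH p (hA.hodge _ a))).mp b, a⟩
  have e1 : ∀ k, Nat.card {p : (Fin k → ι) × (Fin k → ι) //
      df c p ∈ R ∧ π (df c p) ∈ (TT' A ⊓ R.map π : AddSubgroup _)} =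
        Nat.card {p : (Fin k → ι) × (Fin k → ι) //
        IsHodge m ((uni L p).map Prod.fst) ∧ Fixed m σ (uni L p)} := fun k =>
    Nat.card_congr (Equiv.subtypeEquivRight fun p => f1 p)
  have e2 : ∀ k, Nat.card {p : (Fin k → ι) × (Fin k → ι) //
      df c p ∈ R ∧ π (df c p) = 0} = Nat.card {p : (Fin k → ι) × (Fin k → ι) //
        A ((uni L p).map Prod.fst) ∧ Fixed m σ (uni L p)} := fun k =>
    Nat.card_congr (Equiv.subtypeEquivRight fun p => f2 p)
  simp only [e1, e2] at h1 h2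
  refine ⟨s, hs.trans hs0, h1, h2, ?_⟩
  rw [h3]
  refine forall_congr' fun k => forall_congr' fun p => ?_
  constructor
  · intro h a b
    have h4 := (f1 p).mpr ⟨a, b⟩
    exact ((f2 p).mp ⟨h4.1, h h4.1 h4.2⟩).1
  · intro h a b
    have h4 := (f1 p).mp ⟨a, b⟩
    exact ((f2 p).mpr ⟨h h4.1 h4.2, h4.2⟩).2

end Law

end Pool.Agent.Q6.RS
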