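import Pool.Agent.Q6.RS.Cheb0
import Pool.Agent.W54.Cheb.Tor

/-!
The choice of a prime by Chebotarev's theorem (which is a hypothesis in this file).
-/

set_option autoImplicit false

namespace Pool.Agent.Q6.RS

open NumberField Polynomial Pool.Agent.W401.Cheb

/-- a Kummer extension of odd exponent -/
def POm : Prop := ∀ (N : ℕ) [NeZero N] (K : Type) [Field K] [NumberField K]
  [IsCyclotomicExtension {N} ℚ K] (m : ℕ), 0 < m → m ∣ N → ∀ C : Finset (𝓞 K),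
    ∃ (Ω : Type) (_ : Field Ω) (_ : NumberField Ω) (j : K →+* Ω), IsGalois ℚ Ω ∧
      (∀ c ∈ C, ∃ b : Ω, b ^ m = j c) ∧
      ∀ g : Gal(Ω/ℚ), (∀ x : K, g (j x) = j x) → g ^ m = 1

/-- products which are not squares -/
def PComm : Prop := ∀ (M : ℕ) [NeZero M] (K : Type) [Field K] [NumberField K]
  [IsCyclotomicExtension {M} ℚ K] (κ : Type) [Fintype κ] (A D : κ → ℤ) (x y z : κ → ℤ) (ρ : κ → K),
  (∀ e, A e % 4 = 1 ∧ Squarefree (A e) ∧ A e ∣ (M : ℤ)) →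
  (∀ e, D e % 4 = 1 ∧ Squarefree (D e) ∧ D e ∣ (M : ℤ)) →
  (∀ e, x e ^ 2 - A e * y e ^ 2 = D e * z e ^ 2 ∧ z e ≠ 0) → (∀ e, ρ e ^ 2 = (A e : K)) →
  ∀ p q : ℕ, p.Prime → q.Prime → p ≠ q →
  Odd (∑ e, ((if (p : ℤ) ∣ A e ∧ (q : ℤ) ∣ D e then 1 else 0) +
    (if (q : ℤ) ∣ A e ∧ (p : ℤ) ∣ D e then 1 else 0) : ℕ)) →
  ¬ IsSquare (∏ e, ((x e : K) + y e * ρ e))

/-- the choice of the prime -/
def PCheb : Prop := ∀ (N : ℕ) [NeZero N] (K : Type) [Field K] [NumberField K]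
  [IsCyclotomicExtension {N} ℚ K] (m M B : ℕ), Odd m → 0 < M → ∀ C : Finset (𝓞 K), 0 ∉ C →
  ∀ (κ : Type) [Fintype κ] (A D : κ → ℤ) (x y z : κ → ℤ),
  (∀ e, A e % 4 = 1 ∧ Squarefree (A e)) → (∀ e, D e % 4 = 1 ∧ Squarefree (D e)) →
  (∀ e, x e ^ 2 - A e * y e ^ 2 = D e * z e ^ 2 ∧ z e ≠ 0) →
  ∀ p q : ℕ, p.Prime → q.Prime → p ≠ q →
  Odd (∑ e, ((if (p : ℤ) ∣ A e ∧ (q : ℤ) ∣ D e then 1 else 0) +
    (if (q : ℤ) ∣ A e ∧ (p : ℤ) ∣ D e then 1 else 0) : ℕ)) →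
  ∃ (ℓ : ℕ) (_ : Fact ℓ.Prime) (φ : 𝓞 K →+* ZMod ℓ) (r : κ → ZMod ℓ), B < ℓ ∧ M ∣ ℓ - 1 ∧
    (∀ c ∈ C, ∃ b : ZMod ℓ, b ≠ 0 ∧ b ^ m = φ c) ∧ (∀ e, r e ^ 2 = (A e : ZMod ℓ)) ∧
    ∏ e, quadraticChar (ZMod ℓ) ((x e : ZMod ℓ) + y e * r e) = -1

section coe

variable {F : Type} [Field F] [NumberField F]

theorem co_pow (w : 𝓞 F) (n : ℕ) : ((w ^ n : 𝓞 F) : F) = (w : F) ^ n :=
  map_pow (algebraMap (𝓞 F) F) w n

theorem co_zero : ((0 : 𝓞 F) : F) = 0 := map_zero (algebraMap (𝓞 F) F)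

theorem co_neg (w : 𝓞 F) : ((-w : 𝓞 F) : F) = -(w : F) := map_neg (algebraMap (𝓞 F) F) w

theorem co_int (a : ℤ) : ((a : 𝓞 F) : F) = (a : F) := map_intCast (algebraMap (𝓞 F) F) a

end coe

/-- factor a homomorphism through a subfield -/
theorem factor {R k k' : Type} [CommRing R] [Field k] [Field k'] (f : R →+* k') (a : k →+* k')
    (h : ∀ w, ∃ z, a z = f w) : ∃ ψ : R →+* k, ∀ w, a (ψ w) = f w := by
  choose z hz using h
  refine ⟨{ toFun := z, map_one' := ?_, map_mul' := ?_, map_zero' := ?_, map_add' := ?_ }, hz⟩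
  · apply a.injective; rw [hz, map_one, map_one]
  · intro u v; apply a.injective; rw [hz, map_mul, map_mul, hz, hz]
  · apply a.injective; rw [hz, map_zero, map_zero]
  · intro u v; apply a.injective; rw [hz, map_add, map_add, hz, hz]

/-- the product is not a square in the Kummer extension -/
theorem not_square {K' Ω : Type} [Field K'] [NumberField K'] [Field Ω] [NumberField Ω]
    [IsGalois ℚ Ω] (j : K' →+* Ω) (m : ℕ) (hm : Odd m)
    (hexp : ∀ g : Gal(Ω/ℚ), (∀ x : K', g (j x) = j x) → g ^ m = 1) (β : K') (hβ : ¬ IsSquare β)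
    (θ : Ω) : θ ^ 2 ≠ j β := by
  intro hθ
  have hfix : ∀ g : Gal(Ω/ℚ), (∀ x : K', g (j x) = j x) → g θ = θ := by
    intro g hg
    have h1 : (g θ) ^ 2 = θ ^ 2 := by rw [← map_pow, hθ, hg]
    rcases sq_eq_sq_iff_eq_or_eq_neg.mp h1 with h2 | h2
    · exact h2
    · exfalso
      have h3 : ∀ n : ℕ, (g ^ n) θ = (-1) ^ n * θ := by
        intro n
        induction n with
        | zero => simp
        | succ n ih =>
          rw [pow_succ', AlgEquiv.mul_apply, ih, map_mul, map_pow, map_neg, map_one, h2]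
          ring
      have h4 := h3 m
      rw [hexp g hg, hm.neg_one_pow, AlgEquiv.one_apply] at h4
      have h5 : (2 : Ω) * θ = 0 := by linear_combination h4
      have h6 : θ = 0 := by
        rcases mul_eq_zero.mp h5 with h | h
        · exact absurd h two_ne_zero
        · exact h
      have h7 : β = 0 := by
        apply j.injective
        rw [← hθ, h6, map_zero]; ring
      exact hβ ⟨0, by rw [h7]; ring⟩
  obtain ⟨e, he⟩ := gal_range j θ hfix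
  apply hβ
  refine ⟨e, j.injective ?_⟩
  rw [map_mul, he, ← hθ]; ring

theorem core (hinf : ∀ (L : Type) [Field L] [NumberField L] [IsGalois ℚ L] (g : Gal(L/ℚ)),
    {p : ℕ | p.Prime ∧ xp L g p ≠ 0}.Infinite) (h1 : POm) (h2 : PComm) : PCheb := by
  intro N _ K _ _ _ m M B hm hM C hC κ _ A D x y z hA hD hxyz p q hp hq hpq hodd
  classical
  have hm0 : 0 < m := hm.pos
  have hA0 : ∀ e, A e ≠ 0 := fun e => (hA e).2.ne_zero
  have hD0 : ∀ e, D e ≠ 0 := fun e => (hD e).2.ne_zero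
  set P : ℕ := ∏ e, (A e * D e).natAbs with hP
  have hP0 : 0 < P := Finset.prod_pos fun e _ =>
    Int.natAbs_pos.mpr (mul_ne_zero (hA0 e) (hD0 e))
  have hN0 : 0 < N := NeZero.pos N
  set M' : ℕ := 4 * N * M * m * P with hM'
  have hM'0 : 0 < M' := by positivity
  have : NeZero M' := ⟨hM'0.ne'⟩
  have hAM : ∀ e, A e ∣ (M' : ℤ) := by
    intro e
    have h3 : (A e * D e).natAbs ∣ P := Finset.dvd_prod_of_mem _ (Finset.mem_univ e)
    have h4 : P ∣ M' := ⟨4 * N * M * m, by rw [hM']; ring⟩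
    have h5 : (A e).natAbs ∣ M' := by
      refine dvd_trans ?_ (h3.trans h4)
      rw [Int.natAbs_mul]; exact dvd_mul_right _ _
    exact Int.natAbs_dvd.mp (Int.natCast_dvd_natCast.mpr h5)
  have hDM : ∀ e, D e ∣ (M' : ℤ) := by
    intro e
    have h3 : (A e * D e).natAbs ∣ P := Finset.dvd_prod_of_mem _ (Finset.mem_univ e)
    have h4 : P ∣ M' := ⟨4 * N * M * m, by rw [hM']; ring⟩
    have h5 : (D e).natAbs ∣ M' := by
      refine dvd_trans ?_ (h3.trans h4)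
      rw [Int.natAbs_mul]; exact dvd_mul_left _ _
    exact Int.natAbs_dvd.mp (Int.natCast_dvd_natCast.mpr h5)
  obtain ⟨K', fK', nK', cK'⟩ := exists_cyc M'
  obtain ⟨ι⟩ := exists_emb N M' ⟨4 * M * m * P, by rw [hM']; ring⟩ K K'
  obtain ⟨ζ, hζ⟩ := IsCyclotomicExtension.exists_isPrimitiveRoot ℚ K' (Set.mem_singleton M')
    (NeZero.ne M')
  let ιO : 𝓞 K →+* 𝓞 K' := RingOfIntegers.mapRingHom ι
  obtain ⟨Ω, fΩ, nΩ, j, hgalΩ, hroot, hexp⟩ := h1 M' K' m hm0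
    ⟨4 * N * M * P, by rw [hM']; ring⟩ (C.image ιO)
  have hodd4 : ∀ a : ℤ, a % 4 = 1 → Odd a := fun a ha => by
    rw [Int.odd_iff]; omega
  have hρ : ∀ e, ∃ ρ : K', ρ ^ 2 = (A e : K') := by
    intro e
    obtain ⟨s, hs⟩ := isSquare_int (K := K') M' hM'0 ⟨N * M * m * P, by rw [hM']; ring⟩ ζ hζ (A e)
      (hodd4 _ (hA e).1) (hAM e)
    exact ⟨s, by rw [hs]; ring⟩
  choose ρ hρ using hρ
  set β : K' := ∏ e, ((x e : K') + y e * ρ e) with hβd
  have hβ : ¬ IsSquare β := h2 M' K' κ A D x y z ρ (fun e => ⟨(hA e).1, (hA e).2, hAM e⟩)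
    (fun e => ⟨(hD e).1, (hD e).2, hDM e⟩) hxyz hρ p q hp hq hpq hodd
  have hβ0 : β ≠ 0 := fun h => hβ ⟨0, by rw [h]; ring⟩
  obtain ⟨L, fL, nL, i, θ, hgalL, hθ⟩ := exists_galois (j β)
  obtain ⟨g, hg1, hg2⟩ : ∃ g : Gal(L/ℚ), (∀ x : Ω, g (i x) = i x) ∧ g θ ≠ θ := by
    by_contra hcon
    push Not at hcon
    obtain ⟨e, he⟩ := gal_range i θ (fun g hg => hcon g hg)
    refine not_square j m hm hexp β hβ e (i.injective ?_)
    rw [map_pow, he, hθ]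
  have hgθ : g θ = -θ := by
    have h3 : (g θ) ^ 2 = θ ^ 2 := by rw [← map_pow, hθ, hg1]
    exact (sq_eq_sq_iff_eq_or_eq_neg.mp h3).resolve_left hg2
  -- integral elements
  have hρint : ∀ e, IsIntegral ℤ (ρ e) := fun e =>
    IsIntegral.of_pow (n := 2) (by norm_num) (by rw [hρ e]; exact isIntegral_algebraMap)
  let ρO : κ → 𝓞 K' := fun e => ⟨ρ e, hρint e⟩
  let βO : 𝓞 K' := ∏ e, ((x e : 𝓞 K') + y e * ρO e)
  have hβO : (βO : K') = β := by
    change algebraMap (𝓞 K') K' (∏ e, ((x e : 𝓞 K') + y e * ρO e)) = β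
    rw [map_prod, hβd]
    refine Finset.prod_congr rfl fun e _ => ?_
    rw [map_add, map_mul, map_intCast, map_intCast]
    rfl
  let jO : 𝓞 K' →+* 𝓞 Ω := RingOfIntegers.mapRingHom j
  let iO : 𝓞 Ω →+* 𝓞 L := RingOfIntegers.mapRingHom i
  have hjO : ∀ w : 𝓞 K', ((jO w : 𝓞 Ω) : Ω) = j w := fun w => rfl
  have hiO : ∀ w : 𝓞 Ω, ((iO w : 𝓞 L) : L) = i w := fun w => rfl
  have hιO : ∀ w : 𝓞 K, ((ιO w : 𝓞 K') : K') = ι w := fun w => rfl
  have hθint : IsIntegral ℤ θ :=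
    IsIntegral.of_pow (n := 2) (by norm_num) (by
      rw [hθ, ← hβO, ← hjO, ← hiO]; exact RingOfIntegers.isIntegral_coe _)
  let θO : 𝓞 L := ⟨θ, hθint⟩
  have hθO : θO ^ 2 = iO (jO βO) := by
    apply RingOfIntegers.ext
    rw [co_pow, hiO, hjO, hβO, ← hθ]
    rfl
  -- bounds
  have hne : ∀ w : 𝓞 K', w ≠ 0 → iO (jO w) ≠ 0 := by
    intro w hw h
    apply hw
    apply RingOfIntegers.ext
    apply j.injective
    apply i.injective
    have h3 : ((iO (jO w) : 𝓞 L) : L) = 0 := by rw [h, co_zero]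
    rw [hiO, hjO] at h3
    rw [h3, co_zero, map_zero, map_zero]
  have hβO0 : βO ≠ 0 := by
    intro h
    apply hβ0
    rw [← hβO, h, co_zero]
  obtain ⟨B1, hB1⟩ := exists_bound (iO (jO βO)) (hne _ hβO0)
  have hbd : ∀ c : 𝓞 K, ∃ B : ℕ, c ∈ C → ∀ (ℓ : ℕ) (k : Type) [Field k] [CharP k ℓ]
      (Φ : 𝓞 L →+* k), B < ℓ → Φ (iO (jO (ιO c))) ≠ 0 := by
    intro c
    by_cases hc : c ∈ C
    · obtain ⟨B2, hB2⟩ := exists_bound (iO (jO (ιO c))) (hne _ (by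
        intro h
        apply hC
        have h3 : c = 0 := by
          apply RingOfIntegers.ext
          apply ι.injective
          rw [← hιO, h, co_zero, co_zero, map_zero]
        rwa [← h3]))
      exact ⟨B2, fun _ => hB2⟩
    · exact ⟨0, fun h => absurd h hc⟩
  choose B2 hB2 using hbd
  obtain ⟨ℓ, ⟨hℓ, hx⟩, hlt⟩ := (hinf L g).exists_gt (B + M' + B1 + C.sup B2)
  have hF : Fact ℓ.Prime := ⟨hℓ⟩
  obtain ⟨Φ, hΦ⟩ : ∃ Φ : 𝓞 L →+* AlgebraicClosure (ZMod ℓ), HasFrob ℓ Φ g := by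
    unfold xp at hx
    rw [dif_pos hℓ] at hx
    have h3 := (Nat.card_ne_zero.mp hx).1
    obtain ⟨⟨Φ, hΦ⟩⟩ := h3
    exact ⟨Φ, hΦ⟩
  have hsmul : ∀ w : 𝓞 L, ((g • w : 𝓞 L) : L) = g (w : L) := fun w => rfl
  obtain ⟨ψ, hψ⟩ : ∃ ψ : 𝓞 Ω →+* ZMod ℓ, ∀ w,
      algebraMap (ZMod ℓ) (AlgebraicClosure (ZMod ℓ)) (ψ w) = Φ (iO w) := by
    refine factor (Φ.comp iO) _ (fun w => W54.ChTor.frob_fixed ℓ _ ?_)
    have h3 : g • iO w = iO w := by
      apply RingOfIntegers.ext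
      rw [hsmul, hiO, hg1]
    have h4 := hΦ (iO w)
    rw [h3] at h4
    exact h4.symm
  have hℓM : M' < ℓ := by omega
  have hζO : IsPrimitiveRoot hζ.toInteger M' := hζ.toInteger_isPrimitiveRoot
  have hdvd : M' ∣ ℓ - 1 := dvd_sub_one ℓ (ψ.comp jO) M' hM'0 _ hζO hℓM
  have hM'4 : 4 ≤ M' := Nat.le_of_dvd hM'0 ⟨N * M * m * P, by rw [hM']; ring⟩
  have hψβ : ψ (jO βO) = ∏ e, ((x e : ZMod ℓ) + y e * ψ (jO (ρO e))) := by
    change ψ (jO (∏ e, ((x e : 𝓞 K') + y e * ρO e))) = _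
    rw [map_prod, map_prod]
    refine Finset.prod_congr rfl fun e _ => ?_
    rw [map_add, map_add, map_mul, map_mul, map_intCast, map_intCast, map_intCast, map_intCast]
  refine ⟨ℓ, hF, (ψ.comp jO).comp ιO, fun e => ψ (jO (ρO e)), by omega,
    dvd_trans ⟨4 * N * m * P, by rw [hM']; ring⟩ hdvd, ?_, ?_, ?_⟩
  · intro c hc
    obtain ⟨b, hb⟩ := hroot (ιO c) (Finset.mem_image_of_mem ιO hc)
    have hbint : IsIntegral ℤ b := IsIntegral.of_pow hm0 (by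
      rw [hb, ← hjO]; exact RingOfIntegers.isIntegral_coe _)
    let bO : 𝓞 Ω := ⟨b, hbint⟩
    have hbO : bO ^ m = jO (ιO c) := by
      apply RingOfIntegers.ext
      rw [co_pow, hjO, ← hb]
      rfl
    have h3 : ψ bO ^ m = ψ (jO (ιO c)) := by rw [← map_pow, hbO]
    refine ⟨ψ bO, ?_, h3⟩
    intro h4
    rw [h4, zero_pow hm0.ne'] at h3
    refine hB2 c hc ℓ (AlgebraicClosure (ZMod ℓ)) Φ ?_ ?_
    · have := Finset.le_sup (f := B2) hc
      omega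
    · rw [← hψ, ← h3, map_zero]
  · intro e
    rw [← map_pow, ← map_pow]
    have h3 : ρO e ^ 2 = (A e : 𝓞 K') := by
      apply RingOfIntegers.ext
      rw [co_pow, co_int]
      exact hρ e
    rw [h3, map_intCast, map_intCast]
  · rw [← map_prod, ← hψβ, quadraticChar_neg_one_iff_not_isSquare]
    rintro ⟨s, hs⟩
    have h3 : Φ θO ^ 2 = (algebraMap (ZMod ℓ) (AlgebraicClosure (ZMod ℓ)) s) ^ 2 := by
      rw [← map_pow, hθO, ← hψ, hs, map_mul]; ring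
    have h4 : Φ θO ^ ℓ = Φ θO := by
      rcases sq_eq_sq_iff_eq_or_eq_neg.mp h3 with h5 | h5
      · rw [h5, ← map_pow, ZMod.pow_card]
      · rw [h5, ← map_neg, ← map_pow, ZMod.pow_card]
    have h5 : g • θO = -θO := by
      apply RingOfIntegers.ext
      rw [hsmul, co_neg]
      exact hgθ
    have h6 := hΦ θO
    rw [h5, map_neg, h4] at h6
    have h7 : (2 : AlgebraicClosure (ZMod ℓ)) * Φ θO = 0 := by linear_combination -h6
    have h8 : (2 : AlgebraicClosure (ZMod ℓ)) ≠ 0 := by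
      intro h
      have h9 : ((2 : ℕ) : AlgebraicClosure (ZMod ℓ)) = 0 := by exact_mod_cast h
      have hcp : CharP (AlgebraicClosure (ZMod ℓ)) ℓ :=
        charP_of_injective_algebraMap (algebraMap (ZMod ℓ) (AlgebraicClosure (ZMod ℓ))).injective ℓ
      rw [CharP.cast_eq_zero_iff (AlgebraicClosure (ZMod ℓ)) ℓ] at h9
      have := Nat.le_of_dvd (by norm_num) h9
      omega
    have h9 : Φ θO = 0 := (mul_eq_zero.mp h7).resolve_left h8
    have hcp : CharP (AlgebraicClosure (ZMod ℓ)) ℓ :=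
      charP_of_injective_algebraMap (algebraMap (ZMod ℓ) (AlgebraicClosure (ZMod ℓ))).injective ℓ
    refine hB1 ℓ (AlgebraicClosure (ZMod ℓ)) Φ (by omega) ?_
    rw [← hθO, map_pow, h9]; ring

end Pool.Agent.Q6.RS
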