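import Pool.Agent.Q6.RS.Core
import Pool.Agent.W401.Cheb.Main
import Pool.Agent.H180.RS.Stmts

/-!
The choice of a prime by Chebotarev's theorem.
-/

set_option autoImplicit false

namespace Pool.Agent.Q6.RS

open Pool.Agent.H180.RS

theorem cheb (h1 : PropOm) (h2 : PropComm) : PropCheb :=
  core Pool.Agent.W401.Cheb.infinite_frob h1 h2

end Pool.Agent.Q6.RS
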