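import Mathlib

/-!
Auxiliary facts for the choice of a prime by Chebotarev's theorem.
-/

set_option autoImplicit false

namespace Pool.Agent.Q6.RS

open NumberField Polynomial

/-- Galois correspondence for the image of a ring homomorphism -/
theorem gal_range {L : Type} [Field L] [NumberField L] [IsGalois ℚ L] {E : Type} [Field E]
    [NumberField E] (i : E →+* L) (θ : L)
    (h : ∀ g : Gal(L/ℚ), (∀ x : E, g (i x) = i x) → g θ = θ) : ∃ e : E, i e = θ := by
  let iA : E →ₐ[ℚ] L := i.toRatAlgHom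
  let F : IntermediateField ℚ L := iA.fieldRange
  have h1 : IntermediateField.fixedField (IntermediateField.fixingSubgroup F) = F :=
    IsGalois.fixedField_fixingSubgroup F
  have h2 : θ ∈ IntermediateField.fixedField (IntermediateField.fixingSubgroup F) := by
    rw [IntermediateField.mem_fixedField_iff]
    intro g hg
    rw [IntermediateField.mem_fixingSubgroup_iff] at hg
    exact h g (fun x => hg (i x) ⟨x, rfl⟩)
  rw [h1] at h2
  obtain ⟨e, he⟩ := h2
  exact ⟨e, he⟩

/-- adjoin a square root and pass to the normal closure -/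
theorem exists_galois {Ω : Type} [Field Ω] [NumberField Ω] (β : Ω) :
    ∃ (L : Type) (_ : Field L) (_ : NumberField L) (i : Ω →+* L) (θ : L),
      IsGalois ℚ L ∧ θ ^ 2 = i β := by
  classical
  let Q := AlgebraicClosure Ω
  obtain ⟨θ, hθ⟩ := IsAlgClosed.exists_pow_nat_eq (algebraMap Ω Q β) (n := 2) (by norm_num)
  have hint : Algebra.IsAlgebraic ℚ Q := Algebra.IsAlgebraic.trans ℚ Ω Q
  have hcl : IsAlgClosure ℚ Q := ⟨inferInstance, hint⟩
  have hnQ : Normal ℚ Q := IsAlgClosure.normal ℚ Q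
  let iA : Ω →ₐ[ℚ] Q := (algebraMap Ω Q).toRatAlgHom
  let F₀ : IntermediateField ℚ Q := iA.fieldRange ⊔ IntermediateField.adjoin ℚ {θ}
  have hfin1 : FiniteDimensional ℚ iA.fieldRange :=
    LinearMap.finiteDimensional_range iA.toLinearMap
  have hfin2 : FiniteDimensional ℚ (IntermediateField.adjoin ℚ {θ}) :=
    IntermediateField.adjoin.finiteDimensional (hint.isAlgebraic θ).isIntegral
  have hfin : FiniteDimensional ℚ F₀ := IntermediateField.finiteDimensional_sup _ _
  let L : IntermediateField ℚ Q := IntermediateField.normalClosure ℚ F₀ Q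
  have hL : F₀ ≤ L := IntermediateField.le_normalClosure F₀
  have hfinL : FiniteDimensional ℚ L := inferInstance
  have hn : Normal ℚ L := normalClosure.normal ℚ F₀ Q
  have hnf : NumberField L := { to_charZero := inferInstance, to_finiteDimensional := hfinL }
  have hgal : IsGalois ℚ L := ⟨⟩
  have hΩ : ∀ x : Ω, algebraMap Ω Q x ∈ L := fun x =>
    hL ((le_sup_left : iA.fieldRange ≤ F₀) ⟨x, rfl⟩)
  have hθL : θ ∈ L := hL ((le_sup_right : IntermediateField.adjoin ℚ {θ} ≤ F₀)
    (IntermediateField.subset_adjoin ℚ {θ} rfl))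
  refine ⟨L, inferInstance, hnf, (algebraMap Ω Q).codRestrict L.toSubring hΩ, ⟨θ, hθL⟩, hgal, ?_⟩
  apply Subtype.ext
  exact hθ

/-- cyclotomic fields exist -/
theorem exists_cyc (M' : ℕ) [NeZero M'] : ∃ (K' : Type) (_ : Field K') (_ : NumberField K'),
    IsCyclotomicExtension {M'} ℚ K' := by
  refine ⟨CyclotomicField M' ℚ, inferInstance, inferInstance, ?_⟩
  have h : IsCyclotomicExtension {M'} ℚ (CyclotomicField M' ℚ) :=
    CyclotomicField.isCyclotomicExtension M' ℚ
  exact h

/-- a homomorphism into a larger cyclotomic field -/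
theorem exists_emb (N N' : ℕ) [NeZero N] [NeZero N'] (hN : N ∣ N') (K K' : Type) [Field K]
    [NumberField K] [Field K'] [NumberField K'] [IsCyclotomicExtension {N} ℚ K]
    [IsCyclotomicExtension {N'} ℚ K'] : Nonempty (K →+* K') := by
  obtain ⟨ζ, hζ⟩ := IsCyclotomicExtension.exists_isPrimitiveRoot ℚ K' (Set.mem_singleton N')
    (NeZero.ne N')
  obtain ⟨d, hd⟩ := hN
  have h1 : IsPrimitiveRoot (ζ ^ d) N := hζ.pow (NeZero.pos N') (by rw [hd, mul_comm])
  obtain ⟨e⟩ := IsCyclotomicExtension.nonempty_algEquiv_adjoin_of_exists_isPrimitiveRoot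
    {N} ℚ K K' (fun n hn _ => by
      rw [Set.mem_singleton_iff] at hn
      subst hn
      exact ⟨_, h1⟩)
  exact ⟨(IntermediateField.val _).toRingHom.comp e.toRingEquiv.toRingHom⟩

/-- an odd prime is a square in a field with a primitive root of unity and `√-1` -/
theorem isSquare_prime {K : Type} [Field K] [CharZero K] (p : ℕ) [Fact p.Prime] (hp : p ≠ 2)
    (ζ : K) (hζ : IsPrimitiveRoot ζ p) (h1 : IsSquare (-1 : K)) : IsSquare (p : K) := by
  let χ : MulChar (ZMod p) K := (quadraticChar (ZMod p)).ringHomComp (Int.castRingHom K)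
  let ψ : AddChar (ZMod p) K := AddChar.zmodChar p hζ.pow_eq_one
  have hchar : ringChar (ZMod p) ≠ 2 := by rwa [ZMod.ringChar_zmod_n]
  have hχ2 : χ.IsQuadratic := (quadraticChar_isQuadratic (ZMod p)).comp _
  have hχ1 : χ ≠ 1 := by
    intro h
    have h2 := quadraticChar_ne_one hchar
    apply h2
    ext a
    have h3 : χ a = 1 := by rw [h]; exact MulChar.one_apply_coe a
    have h4 : ((quadraticChar (ZMod p) (a : ZMod p) : ℤ) : K) = 1 := h3
    rw [MulChar.one_apply_coe]
    exact_mod_cast h4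
  have h5 := gaussSum_sq hχ1 hχ2 (AddChar.zmodChar_primitive_of_primitive_root p hζ)
  rw [ZMod.card] at h5
  have h6 : χ (-1) = 1 ∨ χ (-1) = -1 := by
    rcases hχ2 (-1) with h | h | h
    · exfalso
      have h7 : IsUnit (-1 : ZMod p) := isUnit_one.neg
      have h8 := (h7.map χ)
      rw [h] at h8
      exact not_isUnit_zero h8
    · exact Or.inl h
    · exact Or.inr h
  rcases h6 with h6 | h6
  · rw [h6, one_mul] at h5
    exact ⟨gaussSum χ ψ, by rw [← h5]; ring⟩
  · rw [h6] at h5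
    obtain ⟨i, hi⟩ := h1
    refine ⟨i * gaussSum χ ψ, ?_⟩
    have : i * gaussSum χ ψ * (i * gaussSum χ ψ) = (i * i) * gaussSum χ ψ ^ 2 := by ring
    rw [this, ← hi]
    change (p : K) = -1 * (gaussSum χ (AddChar.zmodChar p hζ.pow_eq_one)) ^ 2
    rw [h5]; ring

/-- odd divisors of the level are squares -/
theorem isSquare_int {K : Type} [Field K] [CharZero K] (M : ℕ) (hM : 0 < M) (h4 : 4 ∣ M) (ζ : K)
    (hζ : IsPrimitiveRoot ζ M) (A : ℤ) (hA : Odd A) (hAM : A ∣ (M : ℤ)) : IsSquare (A : K) := by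
  have h1 : IsSquare (-1 : K) := by
    obtain ⟨d, hd⟩ := h4
    have h2 : IsPrimitiveRoot (ζ ^ d) 4 := hζ.pow hM (by rw [hd, mul_comm])
    refine ⟨ζ ^ d, ?_⟩
    have h3 : IsPrimitiveRoot ((ζ ^ d) ^ 2) 2 := h2.pow (by norm_num) (by norm_num)
    have h4 := h3.eq_neg_one_of_two_right
    rw [← h4]; ring
  have key : ∀ n : ℕ, n ≠ 0 → Odd n → n ∣ M → IsSquare (n : K) := by
    intro n
    induction n using Nat.recOnMul with
    | zero => intro h; exact absurd rfl h
    | one => intro _ _ _; exact ⟨1, by simp⟩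
    | prime p hp =>
      intro _ ho hd
      have : Fact p.Prime := ⟨hp⟩
      obtain ⟨d, hd⟩ := hd
      have h2 : IsPrimitiveRoot (ζ ^ d) p := hζ.pow hM (by rw [hd, mul_comm])
      refine isSquare_prime p ?_ _ h2 h1
      rintro rfl
      exact absurd ho (by decide)
    | mul a b iha ihb =>
      intro h0 ho hd
      rw [Nat.odd_mul] at ho
      have ha := iha (left_ne_zero_of_mul h0) ho.1 ((dvd_mul_right a b).trans hd)
      have hb := ihb (right_ne_zero_of_mul h0) ho.2 ((dvd_mul_left b a).trans hd)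
      rw [Nat.cast_mul]
      exact ha.mul hb
  have hA0 : A ≠ 0 := by rintro rfl; exact absurd hA (by decide)
  have h5 : IsSquare ((A.natAbs : ℕ) : K) := by
    refine key _ (Int.natAbs_ne_zero.mpr hA0) (Int.natAbs_odd.mpr hA) ?_
    rw [← Int.natCast_dvd_natCast, Int.natAbs_dvd]
    exact hAM
  rcases Int.natAbs_eq A with h | h
  · rw [h, Int.cast_natCast]; exact h5
  · rw [h, Int.cast_neg, Int.cast_natCast, ← neg_one_mul]
    exact h1.mul h5

/-- nonzero algebraic integers stay nonzero modulo large primes -/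
theorem exists_bound {L : Type} [Field L] [NumberField L] (w : 𝓞 L) (hw : w ≠ 0) :
    ∃ B : ℕ, ∀ (ℓ : ℕ) (k : Type) [Field k] [CharP k ℓ] (Φ : 𝓞 L →+* k), B < ℓ → Φ w ≠ 0 := by
  have halg : IsAlgebraic ℤ w := (Algebra.IsIntegral.isIntegral (R := ℤ) w).isAlgebraic
  obtain ⟨r, hr, hd⟩ := halg.exists_nonzero_dvd (mem_nonZeroDivisors_of_ne_zero hw)
  refine ⟨r.natAbs, fun ℓ k _ _ Φ hℓ h => ?_⟩
  obtain ⟨s, hs⟩ := hd
  have h1 : Φ (algebraMap ℤ (𝓞 L) r) = 0 := by rw [hs, map_mul, h, zero_mul]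
  have h2 : ((r : ℤ) : k) = 0 := by
    rw [← h1]
    simp
  rw [CharP.intCast_eq_zero_iff k ℓ] at h2
  have h3 := Int.natAbs_dvd_natAbs.mpr h2
  rw [Int.natAbs_natCast] at h3
  have := Nat.le_of_dvd (Int.natAbs_pos.mpr hr) h3
  omega

/-- the order of the image of a root of unity -/
theorem dvd_sub_one {R : Type} [CommRing R] [IsDomain R] (ℓ : ℕ) [Fact ℓ.Prime] (φ : R →+* ZMod ℓ)
    (M : ℕ) (hM : 0 < M) (ζ : R) (hζ : IsPrimitiveRoot ζ M) (hℓ : M < ℓ) : M ∣ ℓ - 1 := by
  obtain ⟨n, rfl⟩ : ∃ n, M = n + 1 := ⟨M - 1, by omega⟩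
  have h1 := congrArg φ hζ.prod_one_sub_pow_eq_order
  rw [map_prod] at h1
  simp only [map_sub, map_one, map_pow, map_add, map_natCast] at h1
  have h2 : ((n : ZMod ℓ) + 1) ≠ 0 := by
    intro h
    have h3 : ((n + 1 : ℕ) : ZMod ℓ) = 0 := by push_cast; exact h
    rw [ZMod.natCast_eq_zero_iff] at h3
    have := Nat.le_of_dvd (by omega) h3
    omega
  rw [← h1] at h2
  rw [Finset.prod_ne_zero_iff] at h2
  have h4 : φ ζ ^ (n + 1) = 1 := by rw [← map_pow, hζ.pow_eq_one, map_one]
  have h5 : IsPrimitiveRoot (φ ζ) (n + 1) := by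
    refine IsPrimitiveRoot.mk_of_lt _ (by omega) h4 (fun l hl hl' h => ?_)
    have := h2 (l - 1) (Finset.mem_range.mpr (by omega))
    rw [Nat.sub_add_cancel (by omega), h, sub_self] at this
    exact this rfl
  have h6 : φ ζ ≠ 0 := by
    intro h
    rw [h, zero_pow (by omega)] at h4
    exact zero_ne_one h4
  have h7 := orderOf_dvd_of_pow_eq_one (ZMod.pow_card_sub_one_eq_one h6)
  rwa [← h5.eq_orderOf] at h7

end Pool.Agent.Q6.RS
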